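import Pool.Agent.Helper82.NS.Fin
import Pool.Agent.Helper57.NW.Defs

/-!
# NW: block G2 (`ss_sc`): one scale, the prime sum at `u` against the prime polynomial at `t`
-/

set_option autoImplicit false
open MeasureTheory Set Filter Topology
open Pool.Agent.Helper57.TX
open Pool.Agent.Helper54.LG (SS)
open Pool.Agent.Helper93.UG (sp)
open Pool.Agent.Helper69.UG (XX)

namespace Pool.Agent.Helper82.NW

open Pool.Agent.Helper82.NR (rc DP_rc)
open Pool.Agent.Helper82.NS (gen)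

theorem ss_sc {k κ : ℝ} (hk : 0 < k) (hk8 : k ≤ 1 / 8) (hκ : 0 < κ) (hκ8 : κ ≤ 1 / 8) :
    ∃ c C T₀ : ℝ, 0 < c ∧ 1 ≤ C ∧ ∀ T L : ℝ, T₀ ≤ T → C ≤ L → L ≤ Real.log T →
    ∃ E : Set ℝ, volume E ≤ ENNReal.ofReal (C * L ^ (-4 : ℝ) * T) ∧ ∀ t ∈ Icc (T / 2) (3 * T), t ∉ E → ∀ u : ℝ, |u - t| ≤ sp T →
    ∀ j : ℕ, L ^ κ ≤ (1 + k) ^ j → (1 + k) ^ j ≤ L ^ (1 - κ) →
      |SS (XX T ((1 + k) ^ j)) u - (DP (QX (XX T ((1 + k) ^ j))) (rs (XX T ((1 + k) ^ j))) t).re| ≤ C * L ^ (-c) := by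
  obtain ⟨m, hm⟩ : ∃ m : ℕ, m = ⌈5 / κ⌉₊ := ⟨_, rfl⟩
  have hm5 : 5 / κ ≤ m := by
    rw [hm]
    exact Nat.le_ceil _
  have hm1 : 1 ≤ m := by
    have : 0 < 5 / κ := by positivity
    have h1 : (0:ℝ) < m := by linarith
    exact_mod_cast h1
  obtain ⟨C1, T1, hC1, hgen⟩ := gen (1 + k) (by linarith) m hm1
  refine ⟨κ / 2, max (max (2 * C1) (C1 * (2 / k))) (max ((8 * m) ^ (1 / κ)) 1), max T1 1, by positivity,
    le_max_of_le_right (le_max_right _ _), fun T L hT hL hLT => ?_⟩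
  have hC2 : 2 * C1 ≤ max (max (2 * C1) (C1 * (2 / k))) (max ((8 * m) ^ (1 / κ)) 1) := (le_max_left _ _).trans (le_max_left _ _)
  have hC3 : C1 * (2 / k) ≤ max (max (2 * C1) (C1 * (2 / k))) (max ((8 * m) ^ (1 / κ)) 1) :=
    (le_max_right _ _).trans (le_max_left _ _)
  obtain ⟨C, hC⟩ : ∃ C : ℝ, C = max (max (2 * C1) (C1 * (2 / k))) (max ((8 * m) ^ (1 / κ)) 1) := ⟨_, rfl⟩
  rw [← hC] at hC2 hC3 hL ⊢
  have hLm : (8 * m : ℝ) ^ (1 / κ) ≤ L := ((le_max_left _ _).trans (le_max_right _ _)).trans (hC ▸ hL)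
  have hL1 : 1 ≤ L := ((le_max_right _ _).trans (le_max_right _ _)).trans (hC ▸ hL)
  have hLp : 0 < L := by linarith
  have hTa : T1 ≤ T := (le_max_left _ _).trans hT
  have hTp : 0 < T := by linarith [(le_max_right T1 1).trans hT]
  have hK : 0 < Real.log T := by linarith
  have hl2 : (L ^ (κ / 2)) ^ 2 = L ^ κ := by
    rw [pow_two, ← Real.rpow_add hLp]
    congr 1
    ring
  have hl1 : 1 ≤ L ^ (κ / 2) := Real.one_le_rpow hL1 (by positivity)
  have hlk1 : 1 ≤ L ^ κ := Real.one_le_rpow hL1 hκ.le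
  have hq : 0 < 1 + k := by linarith
  have h8m : (8 * m : ℝ) ≤ L ^ κ := by
    calc (8 * m : ℝ) = ((8 * m : ℝ) ^ (1 / κ)) ^ κ := by
          rw [← Real.rpow_mul (by positivity)]
          field_simp
          rw [Real.rpow_one]
      _ ≤ L ^ κ := Real.rpow_le_rpow (by positivity) hLm hκ.le
  have hLk : L ^ (-(κ / 2)) = 1 / L ^ (κ / 2) := by
    rw [Real.rpow_neg hLp.le, one_div]
  have key : ∀ j : ℕ, ∃ E : Set ℝ, volume E ≤ ENNReal.ofReal (C1 * L ^ (-5 : ℝ) * T) ∧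
      (L ^ κ ≤ (1 + k) ^ j → (1 + k) ^ j ≤ L ^ (1 - κ) → ∀ t ∈ Icc (T / 2) (3 * T), t ∉ E → ∀ u : ℝ, |u - t| ≤ sp T →
        |SS (XX T ((1 + k) ^ j)) u - (DP (QX (XX T ((1 + k) ^ j))) (rs (XX T ((1 + k) ^ j))) t).re| ≤ C * L ^ (-(κ / 2))) := by
    intro j
    by_cases hj : L ^ κ ≤ (1 + k) ^ j ∧ (1 + k) ^ j ≤ L ^ (1 - κ)
    · obtain ⟨hj1, hj2⟩ := hj
      have hjp : 0 < (1 + k) ^ j := by positivity
      have n1 : L ^ κ ≤ Real.log T / (1 + k) ^ j := by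
        rw [le_div_iff₀ hjp]
        calc L ^ κ * (1 + k) ^ j ≤ L ^ κ * L ^ (1 - κ) := by gcongr
          _ = L := by
              rw [← Real.rpow_add hLp]
              norm_num
          _ ≤ _ := hLT
      have e1 : (1 + k) * (Real.log T / (1 + k) ^ (j + 1)) = Real.log T / (1 + k) ^ j := by
        rw [pow_succ]
        field_simp
      have n2 : 1 / 2 ≤ Real.log T / (1 + k) ^ (j + 1) := by
        have : 0 < Real.log T / (1 + k) ^ (j + 1) := by positivity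
        nlinarith
      obtain ⟨E, hE, hEt⟩ := hgen T (L ^ (κ / 2)) j 1 hTa hl1 (by rw [hl2]; exact hj1) (by rw [hl2, e1]; exact n1)
        (h8m.trans hj1) n2
      refine ⟨E, hE.trans (ENNReal.ofReal_le_ofReal ?_), fun _ _ t ht hnt u hu => ?_⟩
      · refine mul_le_mul_of_nonneg_right ?_ hTp.le
        have g1 : L ^ (5:ℝ) ≤ (L ^ (κ / 2)) ^ (2 * m) := by
          rw [pow_mul, hl2, ← Real.rpow_natCast, ← Real.rpow_mul hLp.le]
          apply Real.rpow_le_rpow_of_exponent_le hL1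
          rw [div_le_iff₀ hκ] at hm5
          linarith
        calc C1 / (L ^ (κ / 2)) ^ (2 * m) ≤ C1 / L ^ (5:ℝ) := div_le_div_of_nonneg_left hC1.le (by positivity) g1
          _ = C1 * L ^ (-5 : ℝ) := by
              rw [Real.rpow_neg hLp.le]
              rfl
      · have h1 := hEt t ht hnt u hu
        rw [Finset.sum_range_one, add_zero] at h1
        have e2 : DP (QX (Real.log T / (1 + k) ^ j)) (fun p => ∑ i ∈ Finset.range 1, rc (Real.log T / (1 + k) ^ (j + i)) p) t =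
            DP (QX (XX T ((1 + k) ^ j))) (rs (XX T ((1 + k) ^ j))) t := by
          rw [show XX T ((1 + k) ^ j) = Real.log T / (1 + k) ^ j from rfl, DP_rc le_rfl]
          congr 1
          funext p
          rw [Finset.sum_range_one, add_zero]
        rw [e2] at h1
        refine h1.trans ?_
        have g3 : 0 < 1 / L ^ (κ / 2) := by positivity
        have g2 : 1 / Real.log T ≤ 1 / L ^ (κ / 2) := by
          apply one_div_le_one_div_of_le (by positivity)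
          refine le_trans ?_ hLT
          calc L ^ (κ / 2) ≤ L ^ (1:ℝ) := Real.rpow_le_rpow_of_exponent_le hL1 (by linarith)
            _ = L := Real.rpow_one L
        rw [hLk]
        push_cast
        calc C1 * (1 / L ^ (κ / 2) + 1 / Real.log T) ≤ C1 * (1 / L ^ (κ / 2) + 1 / L ^ (κ / 2)) := by gcongr
          _ = 2 * C1 * (1 / L ^ (κ / 2)) := by ring
          _ ≤ _ := mul_le_mul_of_nonneg_right hC2 g3.le
    · refine ⟨∅, by simp, fun h1 h2 => absurd ⟨h1, h2⟩ hj⟩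
  choose E hE hEt using key
  obtain ⟨N, hN⟩ : ∃ N : ℕ, N = ⌊L / k⌋₊ + 1 := ⟨_, rfl⟩
  have hNle : (N : ℝ) ≤ 2 / k * L := by
    rw [hN]
    push_cast
    have h1 : (⌊L / k⌋₊ : ℝ) ≤ L / k := Nat.floor_le (by positivity)
    have h2 : 1 ≤ L / k := by
      rw [le_div_iff₀ hk]
      linarith
    calc (⌊L / k⌋₊ : ℝ) + 1 ≤ L / k + L / k := by linarith
      _ = _ := by ring
  refine ⟨⋃ j ∈ Finset.range N, E j, ?_, fun t ht hnt u hu j hj1 hj2 => ?_⟩
  · refine (measure_biUnion_finset_le _ _).trans ((Finset.sum_le_sum fun j _ => hE j).trans ?_)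
    rw [Finset.sum_const, Finset.card_range, nsmul_eq_mul, ← ENNReal.ofReal_natCast, ← ENNReal.ofReal_mul (Nat.cast_nonneg _)]
    refine ENNReal.ofReal_le_ofReal ?_
    have e3 : L * L ^ (-5 : ℝ) = L ^ (-4 : ℝ) := by
      nth_rewrite 1 [← Real.rpow_one L]
      rw [← Real.rpow_add hLp]
      norm_num
    have g0 : 0 ≤ C1 * L ^ (-5 : ℝ) * T := by positivity
    calc (N : ℝ) * (C1 * L ^ (-5 : ℝ) * T) ≤ 2 / k * L * (C1 * L ^ (-5 : ℝ) * T) := mul_le_mul_of_nonneg_right hNle g0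
      _ = C1 * (2 / k) * (L * L ^ (-5 : ℝ)) * T := by ring
      _ = C1 * (2 / k) * L ^ (-4 : ℝ) * T := by rw [e3]
      _ ≤ C * L ^ (-4 : ℝ) * T := by gcongr
  · refine hEt j hj1 hj2 t ht (fun h => hnt ?_) u hu
    refine mem_iUnion₂.2 ⟨j, Finset.mem_range.2 ?_, h⟩
    have h1 : 1 + (j : ℝ) * k ≤ (1 + k) ^ j := one_add_mul_le_pow (by linarith) j
    have h2 : L ^ (1 - κ) ≤ L := by
      calc L ^ (1 - κ) ≤ L ^ (1:ℝ) := Real.rpow_le_rpow_of_exponent_le hL1 (by linarith)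
        _ = L := Real.rpow_one L
    have h3 : (j : ℝ) ≤ L / k := by
      rw [le_div_iff₀ hk]
      linarith
    have h4 : j ≤ ⌊L / k⌋₊ := Nat.le_floor h3
    omega

end Pool.Agent.Helper82.NW
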