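import Pool.Agent.Helper82.NS.Fin
import Pool.Agent.Helper57.NW.Defs

/-!
# NW: block V1 (`var_up0`): the variance of the plain weights, upper bound
-/

set_option autoImplicit false
open MeasureTheory Set Filter Topology
open Pool.Agent.Helper57.TX (QX DP rs)
open Pool.Agent.Helper57.NW
open Pool.Agent.Helper54.LG (SS)
open Pool.Agent.Helper93.UG (sp)
open Pool.Agent.Helper69.UG (XX)

namespace Pool.Agent.Helper82.NW

open Pool.Agent.Helper64.TX (mem_QX)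
open Pool.Agent.Helper82.NR (rc rc_nonneg)
open Pool.Agent.Helper82.NS (var_upq log_k)
open Pool.Agent.Helper99.NS (card_Icc99)

/-- the scales between two bounds form an interval -/
lemma fil_eq {b u v : ℝ} {N : ℕ} (hb : 1 < b) (hu : 0 < u) (hv : 1 ≤ v) (hN : ∀ j : ℕ, b ^ j ≤ v → j ≤ N) :
    (Finset.range (N + 1)).filter (fun j : ℕ => u ≤ b ^ j ∧ b ^ j ≤ v) =
      Finset.Icc ⌈Real.log u / Real.log b⌉₊ ⌊Real.log v / Real.log b⌋₊ := by
  have hlb : 0 < Real.log b := Real.log_pos hb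
  have hb0 : 0 < b := by linarith
  ext j
  have hj0 : (0:ℝ) < b ^ j := by positivity
  have e1 : u ≤ b ^ j ↔ Real.log u / Real.log b ≤ j := by
    rw [← Real.log_le_log_iff hu hj0, Real.log_pow, div_le_iff₀ hlb]
  have e2 : b ^ j ≤ v ↔ (j : ℝ) ≤ Real.log v / Real.log b := by
    rw [← Real.log_le_log_iff hj0 (by linarith), Real.log_pow, le_div_iff₀ hlb]
  have h0 : 0 ≤ Real.log v / Real.log b := div_nonneg (Real.log_nonneg hv) hlb.le
  rw [Finset.mem_filter, Finset.mem_range, Finset.mem_Icc, Nat.ceil_le, Nat.le_floor_iff h0, ← e1, ← e2]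
  constructor
  · rintro ⟨-, h1, h2⟩
    exact ⟨h1, h2⟩
  · rintro ⟨h1, h2⟩
    exact ⟨Nat.lt_succ_of_le (hN j h2), h1, h2⟩

/-- the scales are a range -/
theorem sc_rng {k R L : ℝ} (hk : 0 < k) (hk8 : k ≤ 1 / 8) (hR : 1 ≤ R) (hU : Real.exp 1 ≤ L / R) : ∃ a : ℕ,
    (∀ f : ℕ → ℝ, ∑ j ∈ Sc k R L, f j = ∑ i ∈ Finset.range (Sc k R L).card, f (a + i)) ∧ 1 ≤ (Sc k R L).card ∧
    R * (L / R) ^ k ≤ (1 + k) ^ a ∧ (1 + k) ^ (a + (Sc k R L).card - 1) ≤ L * (L / R) ^ (-k) ∧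
    |((Sc k R L).card : ℝ) * Real.log (1 + k) - (1 - 2 * k) * Real.log (L / R)| ≤ Real.log (1 + k) := by
  have hR0 : 0 < R := by linarith
  have hU0 : 0 < L / R := (Real.exp_pos 1).trans_le hU
  have hL0 : 0 < L := by
    have := mul_pos hU0 hR0
    rwa [div_mul_cancel₀ _ hR0.ne'] at this
  have hb0 : 0 < 1 + k := by linarith
  have hlU : 1 ≤ Real.log (L / R) := by rwa [Real.le_log_iff_exp_le hU0]
  have hlb : 0 < Real.log (1 + k) := Real.log_pos (by linarith)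
  have h1 : Real.log (1 + k) ≤ k := by
    have := Real.log_le_sub_one_of_pos hb0
    linarith
  have hU1 : 1 ≤ L / R := (Real.one_le_exp (by norm_num)).trans hU
  have hv0 : 0 < L * (L / R) ^ (-k) := by positivity
  have hu0 : 0 < R * (L / R) ^ k := by positivity
  have hlv : Real.log (L * (L / R) ^ (-k)) = Real.log R + (1 - k) * Real.log (L / R) := by
    rw [Real.log_mul hL0.ne' (by positivity), Real.log_rpow hU0, Real.log_div hL0.ne' hR0.ne']
    ring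
  have hlu : Real.log (R * (L / R) ^ k) = Real.log R + k * Real.log (L / R) := by
    rw [Real.log_mul hR0.ne' (by positivity), Real.log_rpow hU0]
  have hlR : 0 ≤ Real.log R := Real.log_nonneg hR
  have hv1 : 1 ≤ L * (L / R) ^ (-k) := by
    rw [← Real.log_nonneg_iff hv0, hlv]
    have : 0 ≤ (1 - k) * Real.log (L / R) := mul_nonneg (by linarith) (by linarith)
    linarith
  have hvL : L * (L / R) ^ (-k) ≤ L := by
    have : (L / R) ^ (-k) ≤ 1 := Real.rpow_le_one_of_one_le_of_nonpos hU1 (by linarith)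
    exact mul_le_of_le_one_right hL0.le this
  have he : Sc k R L = Finset.Icc ⌈Real.log (R * (L / R) ^ k) / Real.log (1 + k)⌉₊
      ⌊Real.log (L * (L / R) ^ (-k)) / Real.log (1 + k)⌋₊ := by
    unfold Sc
    refine fil_eq (by linarith) hu0 hv1 fun j hj => ?_
    have h2 : 1 + (j : ℝ) * k ≤ (1 + k) ^ j := one_add_mul_le_pow (by linarith) j
    have h3 : (j : ℝ) ≤ L / k := by
      rw [le_div_iff₀ hk]
      linarith
    exact Nat.le_floor h3
  obtain ⟨X, hX⟩ : ∃ X, X = Real.log (L / R) / Real.log (1 + k) := ⟨_, rfl⟩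
  obtain ⟨r, hr⟩ : ∃ r, r = Real.log R / Real.log (1 + k) := ⟨_, rfl⟩
  have hX8 : 8 ≤ X := by
    rw [hX, le_div_iff₀ hlb]
    linarith
  have hr0 : 0 ≤ r := hr ▸ div_nonneg hlR hlb.le
  have hx1 : Real.log (R * (L / R) ^ k) / Real.log (1 + k) = r + k * X := by
    rw [hlu, hr, hX]
    ring
  have hx2 : Real.log (L * (L / R) ^ (-k)) / Real.log (1 + k) = r + (1 - k) * X := by
    rw [hlv, hr, hX]
    ring
  rw [hx1, hx2] at he
  have hlX : Real.log (L / R) = X * Real.log (1 + k) := by rw [hX]; field_simp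
  have hlRr : Real.log R = r * Real.log (1 + k) := by rw [hr]; field_simp
  obtain ⟨c1, c2, hab⟩ := card_Icc99 (x := r + k * X) (y := r + (1 - k) * X) (by positivity) (by nlinarith)
  rw [← he] at c1 c2
  obtain ⟨a, ha⟩ : ∃ a, a = ⌈r + k * X⌉₊ := ⟨_, rfl⟩
  obtain ⟨b, hb⟩ : ∃ b, b = ⌊r + (1 - k) * X⌋₊ := ⟨_, rfl⟩
  rw [← ha, ← hb] at he hab
  have hy0 : 0 ≤ r + (1 - k) * X := by nlinarith
  have a1 : (b : ℝ) ≤ r + (1 - k) * X := by rw [hb]; exact Nat.floor_le hy0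
  have a3 : r + k * X ≤ a := by rw [ha]; exact Nat.le_ceil _
  have hc : (Sc k R L).card = b + 1 - a := by rw [he, Nat.card_Icc]
  have h2 : a + (Sc k R L).card - 1 = b := by omega
  refine ⟨a, ?_⟩
  rw [h2]
  refine ⟨fun f => ?_, by omega, ?_, ?_, ?_⟩
  · rw [hc, he, ← Finset.Ico_add_one_right_eq_Icc, Finset.sum_Ico_eq_sum_range]
  · rw [← Real.log_le_log_iff hu0 (by positivity), Real.log_pow, hlu, hlX, hlRr]
    have := mul_le_mul_of_nonneg_right a3 hlb.le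
    linarith
  · rw [← Real.log_le_log_iff (by positivity) hv0, Real.log_pow, hlv, hlX, hlRr]
    have := mul_le_mul_of_nonneg_right a1 hlb.le
    linarith
  · rw [hlX, abs_le]
    constructor
    · nlinarith
    · nlinarith

/-- the coefficients of the plain weights -/
lemma rb_eq {k T R L : ℝ} {a : ℕ}
    (hsum : ∀ f : ℕ → ℝ, ∑ j ∈ Sc k R L, f j = ∑ i ∈ Finset.range (Sc k R L).card, f (a + i))
    {p : ℕ} (hp : p.Prime) : rb k T (Jw k L 0) (bw k R L 0) p =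
      3 / (2 * ((Sc k R L).card : ℝ)) * ∑ i ∈ Finset.range (Sc k R L).card, rc (Real.log T / (1 + k) ^ (a + i)) p := by
  classical
  have hsub : Sc k R L ⊆ Jw k L 0 := by
    intro j hj
    unfold Sc at hj
    exact (Finset.mem_filter.1 hj).1
  unfold rb
  rw [← Finset.sum_subset hsub]
  · rw [← hsum (fun j => rc (Real.log T / (1 + k) ^ j) p), Finset.mul_sum]
    refine Finset.sum_congr rfl fun j hj => ?_
    have e1 : bw k R L 0 j = 3 / (2 * ((Sc k R L).card : ℝ)) := by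
      show (if j ∈ Sc k R L then _ else _) = _
      rw [if_pos hj]
    rw [e1]
    congr 1
    unfold rc XX
    by_cases h : Real.log p ≤ Real.log T / (1 + k) ^ j
    · rw [if_pos h, if_pos (mem_QX.2 ⟨hp, h⟩)]
    · rw [if_neg h, if_neg (fun h' => h (mem_QX.1 h').2)]
  · intro j _ hj
    have e1 : bw k R L 0 j = 0 := by
      show (if j ∈ Sc k R L then _ else _) = _
      rw [if_neg hj]
    rw [e1, zero_mul]

theorem var_up0 {k d : ℝ} (hk : 0 < k) (hk8 : k ≤ 1 / 8) (hd : 0 < d) (hd1 : d ≤ 1) : ∃ C T₀ : ℝ, 1 ≤ C ∧ ∀ T R L : ℝ,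
    T₀ ≤ T → C ≤ L → L ≤ Real.log T → 1 ≤ R → R ≤ L ^ (1 - d) → Vw k T R L 0 ≤ (1 + 5 * k) / Real.log (L / R) := by
  obtain ⟨Cv, hCv, hv⟩ := var_upq (1 + k) (by linarith)
  obtain ⟨D, hD⟩ : ∃ D : ℝ, D = max 4 ((9 / 4 * Cv + (1 + 5 * k) * k) / (k * (1 / 10))) := ⟨_, rfl⟩
  have hD4 : 4 ≤ D := hD ▸ le_max_left _ _
  have hDb : (9 / 4 * Cv + (1 + 5 * k) * k) / (k * (1 / 10)) ≤ D := hD ▸ le_max_right _ _
  have hDd : 1 ≤ Real.exp (D / d) := Real.one_le_exp (by positivity)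
  refine ⟨Real.exp (D / d), 1, hDd, fun T R L hT hL hLT hR hRL => ?_⟩
  have hL1 : 1 ≤ L := hDd.trans hL
  have hLp : 0 < L := by linarith
  have hR0 : 0 < R := by linarith
  have hUd : L ^ d ≤ L / R := by
    rw [le_div_iff₀ hR0]
    calc L ^ d * R ≤ L ^ d * L ^ (1 - d) := by gcongr
      _ = L := by
          rw [← Real.rpow_add hLp]
          norm_num
  have hUp : 0 < L / R := by positivity
  have hΛ : D ≤ Real.log (L / R) := by
    have h1 : D / d ≤ Real.log L := by rwa [Real.le_log_iff_exp_le hLp]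
    have h2 : Real.log (L ^ d) ≤ Real.log (L / R) := Real.log_le_log (by positivity) hUd
    rw [Real.log_rpow hLp] at h2
    rw [div_le_iff₀ hd] at h1
    linarith
  have hU : Real.exp 1 ≤ L / R := by
    rw [← Real.le_log_iff_exp_le hUp]
    linarith
  have hU1 : 1 ≤ L / R := (Real.one_le_exp (by norm_num)).trans hU
  obtain ⟨a, hsum, hJ1, ha1, ha3, hcd⟩ := sc_rng hk hk8 hR hU
  obtain ⟨J, hJ⟩ : ∃ J : ℕ, J = (Sc k R L).card := ⟨_, rfl⟩
  have hrk : ∀ p : ℕ, p.Prime → rb k T (Jw k L 0) (bw k R L 0) p =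
      3 / (2 * (J:ℝ)) * ∑ i ∈ Finset.range J, rc (Real.log T / (1 + k) ^ (a + i)) p := by
    intro p hp
    rw [rb_eq (T := T) hsum hp, hJ]
  rw [← hJ] at hJ1 ha3 hcd
  have hJ0 : (1:ℝ) ≤ J := by exact_mod_cast hJ1
  have hJp : (0:ℝ) < J := by linarith
  have hK : 0 < Real.log T := by linarith
  have hq : 0 < 1 + k := by linarith
  have n2 : 1 / 2 ≤ Real.log T / (1 + k) ^ (a + J) := by
    have e1 : (1 + k) ^ (a + J) = (1 + k) ^ (a + J - 1) * (1 + k) := by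
      rw [← pow_succ]
      congr 1
      omega
    have hUk : (L / R) ^ (-k) ≤ 1 := Real.rpow_le_one_of_one_le_of_nonpos hU1 (by linarith)
    rw [le_div_iff₀ (by positivity), e1]
    have h2 : (1 + k) ^ (a + J - 1) ≤ L := ha3.trans (mul_le_of_le_one_right hLp.le hUk)
    have h3 : (1 + k) ^ (a + J - 1) * (1 + k) ≤ L * 2 := mul_le_mul h2 (by linarith) hq.le hLp.le
    linarith
  have n3 : Real.log T / (1 + k) ^ a ≤ Xr k T R L := by
    unfold Xr
    exact div_le_div_of_nonneg_left hK.le (by positivity) ha1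
  have hv1 := hv (Real.log T) a J n2 (QX (Real.log T / (1 + k) ^ a)) (fun p hp => mem_QX.1 hp)
  -- restriction of the sum
  have hsub : QX (Real.log T / (1 + k) ^ a) ⊆ QX (Xr k T R L) := fun p hp => by
    rw [mem_QX] at hp ⊢
    exact ⟨hp.1, hp.2.trans n3⟩
  have hout : ∀ p ∈ QX (Xr k T R L), p ∉ QX (Real.log T / (1 + k) ^ a) →
      rb k T (Jw k L 0) (bw k R L 0) p ^ 2 / (p:ℝ) = 0 := by
    intro p hp hnp
    obtain ⟨hp1, _⟩ := mem_QX.1 hp
    have h0 : ∑ i ∈ Finset.range J, rc (Real.log T / (1 + k) ^ (a + i)) p = 0 := by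
      refine Finset.sum_eq_zero fun i _ => ?_
      unfold rc
      rw [if_neg]
      intro h
      apply hnp
      rw [mem_QX] at h ⊢
      refine ⟨h.1, h.2.trans ?_⟩
      exact div_le_div_of_nonneg_left hK.le (by positivity) (pow_le_pow_right₀ (by linarith) (by omega))
    rw [hrk p hp1, h0]
    simp
  unfold Vw
  rw [← Finset.sum_subset hsub hout]
  have h1 : ∑ p ∈ QX (Real.log T / (1 + k) ^ a), rb k T (Jw k L 0) (bw k R L 0) p ^ 2 / (p:ℝ) =
      9 / (4 * (J:ℝ) ^ 2) * ∑ p ∈ QX (Real.log T / (1 + k) ^ a),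
        (∑ i ∈ Finset.range J, rc (Real.log T / (1 + k) ^ (a + i)) p) ^ 2 / (p:ℝ) := by
    rw [Finset.mul_sum]
    refine Finset.sum_congr rfl fun p hp => ?_
    rw [hrk p (mem_QX.1 hp).1]
    field_simp
    ring
  rw [h1]
  obtain ⟨Λ, hΛd⟩ : ∃ Λ : ℝ, Λ = Real.log (L / R) := ⟨_, rfl⟩
  rw [← hΛd] at hΛ hcd ⊢
  have hΛp : 0 < Λ := by linarith
  rw [add_sub_cancel_left] at hv1
  -- the count
  have hlk := log_k hk hk8
  have hlk0 : 0 < Real.log (1 + k) := Real.log_pos (by linarith)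
  rw [abs_le] at hcd
  have hkJ : ((1 - 2 * k) * Λ - k) ≤ k * J * (1 - 2 / 5 * k) := by
    have g1 : (1 - 2 * k) * Λ - Real.log (1 + k) ≤ J * Real.log (1 + k) := by linarith [hcd.1]
    have g2 : (J:ℝ) * Real.log (1 + k) ≤ J * (k * (1 - 2 / 5 * k)) := mul_le_mul_of_nonneg_left hlk hJp.le
    have g3 : k * (1 - 2 / 5 * k) ≤ k := by nlinarith
    linarith
  have hJL : Λ ≤ J := by
    have g1 : (1 - 2 * k) * Λ ≥ 3 / 4 * Λ := by nlinarith
    have g2 : k * J * (1 - 2 / 5 * k) ≤ 1 / 8 * J := by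
      have : k * (1 - 2 / 5 * k) ≤ 1 / 8 := by nlinarith
      nlinarith
    linarith
  obtain ⟨Y, hY⟩ : ∃ Y : ℝ, Y = (1 - 2 * k) * Λ - k := ⟨_, rfl⟩
  rw [← hY] at hkJ
  have hY0 : 0 < Y := by
    rw [hY]
    nlinarith
  have h2 : 9 / (4 * (J:ℝ) ^ 2) * (4 / 9 * ((1 + k) ^ 2 / k) * J + Cv) ≤
      (1 + k) ^ 2 * (1 - 2 / 5 * k) / Y + 9 / 4 * Cv / Λ ^ 2 := by
    have e1 : 9 / (4 * (J:ℝ) ^ 2) * (4 / 9 * ((1 + k) ^ 2 / k) * J + Cv) = (1 + k) ^ 2 / (k * J) + 9 / 4 * Cv / (J:ℝ) ^ 2 := by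
      field_simp
    rw [e1]
    refine add_le_add ?_ ?_
    · rw [div_le_div_iff₀ (by positivity) hY0]
      calc (1 + k) ^ 2 * Y ≤ (1 + k) ^ 2 * (k * J * (1 - 2 / 5 * k)) := by gcongr
        _ = _ := by ring
    · exact div_le_div_of_nonneg_left (by positivity) (by positivity) (pow_le_pow_left₀ hΛp.le hJL 2)
  have h3 : (1 + k) ^ 2 * (1 - 2 / 5 * k) / Y + 9 / 4 * Cv / Λ ^ 2 ≤ (1 + 5 * k) / Λ := by
    have hB : (1 + k) ^ 2 * (1 - 2 / 5 * k) + k * (1 / 10) ≤ (1 + 5 * k) * (1 - 2 * k) := by nlinarith [mul_pos hk hk]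
    have g0 : 9 / 4 * Cv + (1 + 5 * k) * k ≤ k * (1 / 10) * Λ := by
      have := hDb.trans hΛ
      rw [div_le_iff₀ (by positivity)] at this
      linarith
    have g1 : (1 + k) ^ 2 * (1 - 2 / 5 * k) * Λ ^ 2 + 9 / 4 * Cv * Y ≤ (1 + 5 * k) * Λ * Y := by
      have g2 : 9 / 4 * Cv * Y ≤ 9 / 4 * Cv * Λ := by
        refine mul_le_mul_of_nonneg_left ?_ (by positivity)
        rw [hY]
        nlinarith
      have g3 : (1 + 5 * k) * Λ * Y = (1 + 5 * k) * (1 - 2 * k) * Λ ^ 2 - (1 + 5 * k) * k * Λ := by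
        rw [hY]
        ring
      have g4 : ((1 + k) ^ 2 * (1 - 2 / 5 * k) + k * (1 / 10)) * Λ ^ 2 ≤ (1 + 5 * k) * (1 - 2 * k) * Λ ^ 2 :=
        mul_le_mul_of_nonneg_right hB (sq_nonneg _)
      have g5 : (9 / 4 * Cv + (1 + 5 * k) * k) * Λ ≤ k * (1 / 10) * Λ * Λ :=
        mul_le_mul_of_nonneg_right g0 hΛp.le
      nlinarith
    rw [div_add_div _ _ hY0.ne' (by positivity), div_le_div_iff₀ (by positivity) hΛp]
    calc ((1 + k) ^ 2 * (1 - 2 / 5 * k) * Λ ^ 2 + Y * (9 / 4 * Cv)) * Λ ≤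
        ((1 + 5 * k) * Λ * Y) * Λ := by
          refine mul_le_mul_of_nonneg_right ?_ hΛp.le
          linarith
      _ = _ := by ring
  have h4 : 0 ≤ 9 / (4 * (J:ℝ) ^ 2) := by positivity
  exact (mul_le_mul_of_nonneg_left hv1 h4).trans (h2.trans h3)

end Pool.Agent.Helper82.NW
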