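import Pool.Agent.Helper82.NW.Var
import Pool.Agent.Helper93.NS.VarLow

/-!
# NW: block V1 (`var_low0`): the variance of the plain weights, lower bound
-/

set_option autoImplicit false
open MeasureTheory Set Filter Topology
open Pool.Agent.Helper57.TX (QX DP rs)
open Pool.Agent.Helper57.NW
open Pool.Agent.Helper69.UG (XX)

namespace Pool.Agent.Helper82.NW

open Pool.Agent.Helper64.TX (mem_QX)
open Pool.Agent.Helper82.NR (rc rc_nonneg)
open Pool.Agent.Helper99.NS (card_Icc99)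
open Pool.Agent.Helper93.NS (step_H H_le recip_sum)

/-- the scales are a range, all bounds -/
theorem sc_rng4 {k R L : ℝ} (hk : 0 < k) (hk8 : k ≤ 1 / 8) (hR : 1 ≤ R) (hU : Real.exp 1 ≤ L / R) : ∃ a : ℕ,
    (∀ f : ℕ → ℝ, ∑ j ∈ Sc k R L, f j = ∑ i ∈ Finset.range (Sc k R L).card, f (a + i)) ∧ 1 ≤ (Sc k R L).card ∧
    (1 + k) ^ a ≤ (1 + k) * (R * (L / R) ^ k) ∧ L * (L / R) ^ (-k) ≤ (1 + k) * (1 + k) ^ (a + (Sc k R L).card - 1) ∧
    |((Sc k R L).card : ℝ) * Real.log (1 + k) - (1 - 2 * k) * Real.log (L / R)| ≤ Real.log (1 + k) := by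
  have hR0 : 0 < R := by linarith
  have hU0 : 0 < L / R := (Real.exp_pos 1).trans_le hU
  have hL0 : 0 < L := by
    have := mul_pos hU0 hR0
    rwa [div_mul_cancel₀ _ hR0.ne'] at this
  have hb0 : 0 < 1 + k := by linarith
  have hlU : 1 ≤ Real.log (L / R) := by rwa [Real.le_log_iff_exp_le hU0]
  have hlb : 0 < Real.log (1 + k) := Real.log_pos (by linarith)
  have h1 : Real.log (1 + k) ≤ k := by
    have := Real.log_le_sub_one_of_pos hb0
    linarith
  have hU1 : 1 ≤ L / R := (Real.one_le_exp (by norm_num)).trans hU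
  have hv0 : 0 < L * (L / R) ^ (-k) := by positivity
  have hu0 : 0 < R * (L / R) ^ k := by positivity
  have hlv : Real.log (L * (L / R) ^ (-k)) = Real.log R + (1 - k) * Real.log (L / R) := by
    rw [Real.log_mul hL0.ne' (by positivity), Real.log_rpow hU0, Real.log_div hL0.ne' hR0.ne']
    ring
  have hlu : Real.log (R * (L / R) ^ k) = Real.log R + k * Real.log (L / R) := by
    rw [Real.log_mul hR0.ne' (by positivity), Real.log_rpow hU0]
  have hlR : 0 ≤ Real.log R := Real.log_nonneg hR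
  have hv1 : 1 ≤ L * (L / R) ^ (-k) := by
    rw [← Real.log_nonneg_iff hv0, hlv]
    have : 0 ≤ (1 - k) * Real.log (L / R) := mul_nonneg (by linarith) (by linarith)
    linarith
  have hvL : L * (L / R) ^ (-k) ≤ L := by
    have : (L / R) ^ (-k) ≤ 1 := Real.rpow_le_one_of_one_le_of_nonpos hU1 (by linarith)
    exact mul_le_of_le_one_right hL0.le this
  have he : Sc k R L = Finset.Icc ⌈Real.log (R * (L / R) ^ k) / Real.log (1 + k)⌉₊
      ⌊Real.log (L * (L / R) ^ (-k)) / Real.log (1 + k)⌋₊ := by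
    unfold Sc
    refine fil_eq (by linarith) hu0 hv1 fun j hj => ?_
    have h2 : 1 + (j : ℝ) * k ≤ (1 + k) ^ j := one_add_mul_le_pow (by linarith) j
    have h3 : (j : ℝ) ≤ L / k := by
      rw [le_div_iff₀ hk]
      linarith
    exact Nat.le_floor h3
  obtain ⟨X, hX⟩ : ∃ X, X = Real.log (L / R) / Real.log (1 + k) := ⟨_, rfl⟩
  obtain ⟨r, hr⟩ : ∃ r, r = Real.log R / Real.log (1 + k) := ⟨_, rfl⟩
  have hX8 : 8 ≤ X := by
    rw [hX, le_div_iff₀ hlb]
    linarith
  have hr0 : 0 ≤ r := hr ▸ div_nonneg hlR hlb.le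
  have hx1 : Real.log (R * (L / R) ^ k) / Real.log (1 + k) = r + k * X := by
    rw [hlu, hr, hX]
    ring
  have hx2 : Real.log (L * (L / R) ^ (-k)) / Real.log (1 + k) = r + (1 - k) * X := by
    rw [hlv, hr, hX]
    ring
  rw [hx1, hx2] at he
  have hlX : Real.log (L / R) = X * Real.log (1 + k) := by rw [hX]; field_simp
  have hlRr : Real.log R = r * Real.log (1 + k) := by rw [hr]; field_simp
  obtain ⟨c1, c2, hab⟩ := card_Icc99 (x := r + k * X) (y := r + (1 - k) * X) (by positivity) (by nlinarith)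
  rw [← he] at c1 c2
  obtain ⟨a, ha⟩ : ∃ a, a = ⌈r + k * X⌉₊ := ⟨_, rfl⟩
  obtain ⟨b, hb⟩ : ∃ b, b = ⌊r + (1 - k) * X⌋₊ := ⟨_, rfl⟩
  rw [← ha, ← hb] at he hab
  have hy0 : 0 ≤ r + (1 - k) * X := by nlinarith
  have a1 : r + (1 - k) * X ≤ b + 1 := by rw [hb]; exact (Nat.lt_floor_add_one _).le
  have a3 : (a : ℝ) ≤ r + k * X + 1 := by rw [ha]; exact (Nat.ceil_lt_add_one (by positivity)).le
  have hc : (Sc k R L).card = b + 1 - a := by rw [he, Nat.card_Icc]
  have h2 : a + (Sc k R L).card - 1 = b := by omega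
  refine ⟨a, ?_⟩
  rw [h2]
  refine ⟨fun f => ?_, by omega, ?_, ?_, ?_⟩
  · rw [hc, he, ← Finset.Ico_add_one_right_eq_Icc, Finset.sum_Ico_eq_sum_range]
  · rw [← Real.log_le_log_iff (by positivity) (by positivity), Real.log_pow, Real.log_mul hb0.ne' hu0.ne', hlu, hlX, hlRr]
    have := mul_le_mul_of_nonneg_right a3 hlb.le
    linarith
  · rw [← Real.log_le_log_iff hv0 (by positivity), Real.log_mul hb0.ne' (by positivity), Real.log_pow, hlv, hlX, hlRr]
    have := mul_le_mul_of_nonneg_right a1 hlb.le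
    linarith
  · rw [hlX, abs_le]
    constructor
    · nlinarith
    · nlinarith

/-- the coefficients in the bulk -/
lemma bulk {k lT u v : ℝ} (hk : 0 < k) (hk8 : k ≤ 1 / 8) (hlT : 0 < lT) (hu : 0 < u) (hv : 0 < v) {a J : ℕ} (hJ : 1 ≤ J)
    (h1 : (1 + k) ^ a ≤ (1 + k) * u) (h2 : v ≤ (1 + k) * (1 + k) ^ (a + J - 1)) {p : ℕ} (hp : p.Prime)
    (hx1 : lT / v ≤ Real.log p) (hx2 : Real.log p ≤ k / 6 * (lT / u)) :
    (1 - 3 * k / 5) / (J * k) ≤ 3 / (2 * (J:ℝ)) * ∑ i ∈ Finset.range J, rc (lT / (1 + k) ^ (a + i)) p := by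
  have hx0 : 0 < Real.log p := Real.log_pos (by exact_mod_cast hp.one_lt)
  set x := Real.log p with hx
  obtain ⟨y, hy⟩ : ∃ y : ℕ → ℝ, y = fun i => x * (1 + k) ^ (a + i) / lT := ⟨_, rfl⟩
  have hy0 : ∀ i, 0 ≤ y i := fun i => by rw [hy]; positivity
  have hys : ∀ i, y (i + 1) = (1 + k) * y i := by
    intro i
    rw [hy]
    simp only
    rw [← add_assoc, pow_succ]
    ring
  -- the terms
  have hterm : ∀ i, rc (lT / (1 + k) ^ (a + i)) p = 2 * (y i * max 0 (1 - y i) ^ 2) := by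
    intro i
    have hX : 0 < lT / (1 + k) ^ (a + i) := by positivity
    have hyi : y i = x / (lT / (1 + k) ^ (a + i)) := by
      rw [hy]
      field_simp
    unfold rc
    by_cases h : x ≤ lT / (1 + k) ^ (a + i)
    · rw [if_pos (mem_QX.2 ⟨hp, h⟩)]
      have h3 : y i ≤ 1 := by
        rw [hyi, div_le_one hX]
        exact h
      rw [max_eq_right (by linarith)]
      unfold rs
      rw [← hx, hyi]
      field_simp
    · rw [if_neg (fun h' => h (mem_QX.1 h').2)]
      have h3 : 1 < y i := by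
        rw [hyi, one_lt_div hX]
        exact not_le.1 h
      rw [max_eq_left (by linarith)]
      ring
  rw [Finset.sum_congr rfl fun i _ => hterm i]
  -- telescoping
  have htel : (1 - max 0 (1 - y J) ^ 3) / 3 - (1 - max 0 (1 - y 0) ^ 3) / 3 ≤ k * ∑ i ∈ Finset.range J, (y i * max 0 (1 - y i) ^ 2) := by
    have h3 := Finset.sum_range_sub (fun i => (1 - max 0 (1 - y i) ^ 3) / 3) J
    rw [← h3, Finset.mul_sum]
    refine Finset.sum_le_sum fun i _ => ?_
    have := step_H (k := k) (y := y i) hk.le (hy0 i)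
    rw [← hys] at this
    exact this
  have hyJ : 1 ≤ y J := by
    rw [hy]
    simp only
    rw [le_div_iff₀ hlT, one_mul]
    have h3 : (1 + k) * (1 + k) ^ (a + J - 1) = (1 + k) ^ (a + J) := by
      rw [← pow_succ']
      congr 1
      omega
    rw [h3] at h2
    rw [div_le_iff₀ hv] at hx1
    exact hx1.trans (mul_le_mul_of_nonneg_left h2 hx0.le)
  have hy00 : y 0 ≤ k / 5 := by
    rw [hy]
    simp only [add_zero]
    rw [div_le_iff₀ hlT]
    have h3 : x * (1 + k) ^ a ≤ (k / 6 * (lT / u)) * ((1 + k) * u) := mul_le_mul hx2 h1 (by positivity) (by positivity)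
    have h4 : (k / 6 * (lT / u)) * ((1 + k) * u) = k / 6 * (1 + k) * lT := by
      field_simp
    rw [h4] at h3
    refine h3.trans (mul_le_mul_of_nonneg_right ?_ hlT.le)
    nlinarith
  have hH0 := H_le (hy0 0)
  rw [max_eq_left (by linarith : 1 - y J ≤ 0)] at htel
  have hS : (1 / 3 - k / 5) / k ≤ ∑ i ∈ Finset.range J, (y i * max 0 (1 - y i) ^ 2) := by
    rw [div_le_iff₀ hk]
    norm_num at htel
    linarith
  have hJ0 : (0:ℝ) < J := by exact_mod_cast hJ
  rw [← Finset.mul_sum]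
  have h3 : 3 / (2 * (J:ℝ)) * (2 * ((1 / 3 - k / 5) / k)) ≤ 3 / (2 * (J:ℝ)) * (2 * ∑ i ∈ Finset.range J, (y i * max 0 (1 - y i) ^ 2)) := by
    gcongr
  refine le_trans (le_of_eq ?_) h3
  field_simp

theorem var_low0 {k d : ℝ} (hk : 0 < k) (hk8 : k ≤ 1 / 8) (hd : 0 < d) (hd1 : d ≤ 1) : ∃ C T₀ : ℝ, 1 ≤ C ∧ ∀ T R L : ℝ,
    T₀ ≤ T → C ≤ L → L ≤ Real.log T → 1 ≤ R → R ≤ L ^ (1 - d) → (1 - 6 * k) / Real.log (L / R) ≤ Vw k T R L 0 := by
  obtain ⟨E, hE, H3⟩ := recip_sum
  obtain ⟨ℓ, hℓ⟩ : ∃ ℓ, ℓ = (6 / k + E) / k := ⟨_, rfl⟩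
  have hℓ0 : 0 < ℓ := by rw [hℓ]; positivity
  refine ⟨Real.exp (ℓ / d), 3, Real.one_le_exp (by positivity), fun T R L hT hCL hLT hR hRL => ?_⟩
  have hL0 : 0 < L := (Real.exp_pos _).trans_le hCL
  have hR0 : 0 < R := by linarith
  have hUd : L ^ d ≤ L / R := by
    rw [le_div_iff₀ hR0]
    calc L ^ d * R ≤ L ^ d * L ^ (1 - d) := by gcongr
      _ = L := by
          rw [← Real.rpow_add hL0]
          norm_num
  have hUp : 0 < L / R := by positivity
  obtain ⟨U, hUU⟩ : ∃ U, U = L / R := ⟨_, rfl⟩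
  have hlogL : ℓ ≤ Real.log (L / R) := by
    have h1 : ℓ / d ≤ Real.log L := by rwa [Real.le_log_iff_exp_le hL0]
    have h2 : Real.log (L ^ d) ≤ Real.log (L / R) := Real.log_le_log (by positivity) hUd
    rw [Real.log_rpow hL0] at h2
    rw [div_le_iff₀ hd] at h1
    linarith
  have hl : 6 / k + E ≤ k * Real.log (L / R) := by
    rw [hℓ, div_le_iff₀ hk] at hlogL
    linarith
  have h6k : 48 ≤ 6 / k := by
    rw [le_div_iff₀ hk]
    linarith
  have hl0 : 0 < Real.log (L / R) := by nlinarith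
  have hl48 : 384 ≤ Real.log (L / R) := by nlinarith
  have hU : Real.exp 1 ≤ L / R := by
    rw [← Real.le_log_iff_exp_le hUp]
    linarith
  have hU1 : 1 ≤ L / R := (Real.one_le_exp (by norm_num)).trans hU
  have hlT : 0 < Real.log T := by linarith
  obtain ⟨a, hsum, hJ, ha2, ha4, hcd⟩ := sc_rng4 hk hk8 hR hU
  have hcard := (abs_le.1 hcd).2
  have hrk : ∀ p : ℕ, p.Prime → rb k T (Jw k L 0) (bw k R L 0) p =
      3 / (2 * (((Sc k R L).card : ℕ) : ℝ)) * ∑ i ∈ Finset.range (Sc k R L).card, rc (Real.log T / (1 + k) ^ (a + i)) p :=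
    fun p hp => rb_eq (T := T) hsum hp
  set J := (Sc k R L).card with hJd
  have hJ0 : (0:ℝ) < J := by exact_mod_cast hJ
  set h := Real.log (1 + k) with hh
  have hh1 : h ≤ k := by
    have := Real.log_le_sub_one_of_pos (show 0 < 1 + k by linarith)
    linarith
  have hh2 : k ≤ h * (1 + k / 2) := by
    have h5 := Real.le_log_one_add_of_nonneg hk.le
    rw [div_le_iff₀ (by linarith)] at h5
    linarith
  have hJk : J * k ≤ (1 + k / 2) * ((1 - 2 * k) * Real.log (L / R) + h) := by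
    have h5 := mul_le_mul_of_nonneg_left hh2 hJ0.le
    have h6 := mul_le_mul_of_nonneg_left hcard (show 0 ≤ 1 + k / 2 by linarith)
    nlinarith
  have hr : 1 / Real.log (L / R) ≤ (1 - 3 * k / 5) / (J * k) := by
    rw [div_le_div_iff₀ hl0 (by positivity), one_mul]
    refine hJk.trans ?_
    nlinarith
  -- the bulk
  obtain ⟨v, hv⟩ : ∃ v, v = L * (L / R) ^ (-k) := ⟨_, rfl⟩
  obtain ⟨u, hu⟩ : ∃ u, u = R * (L / R) ^ k := ⟨_, rfl⟩
  have hv0 : 0 < v := by rw [hv]; positivity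
  have hu0 : 0 < u := by rw [hu]; positivity
  have hvL : v ≤ L := by
    rw [hv]
    exact mul_le_of_le_one_right hL0.le (Real.rpow_le_one_of_one_le_of_nonpos hU1 (by linarith))
  rw [← hu] at ha2
  rw [← hv] at ha4
  obtain ⟨A, hA⟩ : ∃ A, A = Real.log T / v := ⟨_, rfl⟩
  obtain ⟨B, hB⟩ : ∃ B, B = k / 6 * (Real.log T / u) := ⟨_, rfl⟩
  have hA1 : 1 ≤ A := by
    rw [hA, le_div_iff₀ hv0, one_mul]
    exact hvL.trans hLT
  have hA0 : 0 < A := by linarith
  have hB0 : 0 < B := by rw [hB]; positivity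
  have hBA : B / A = k / 6 * (L / R) ^ (1 - 2 * k) := by
    have e : (L / R) ^ (1 - 2 * k) = v / u := by
      rw [hv, hu, mul_div_mul_comm, ← Real.rpow_sub hUp]
      nth_rewrite 2 [← Real.rpow_one (L / R)]
      rw [← Real.rpow_add hUp]
      congr 1
      ring
    rw [e, hA, hB]
    field_simp
  have hlogBA : Real.log (B / A) = (1 - 2 * k) * Real.log (L / R) - Real.log (6 / k) := by
    rw [hBA, Real.log_mul (by positivity) (by positivity), Real.log_rpow hUp, Real.log_div hk.ne' (by norm_num),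
      Real.log_div (by norm_num) hk.ne']
    ring
  have hlog6 : Real.log (6 / k) ≤ 6 / k := (Real.log_le_self (by positivity))
  have hlow : (1 - 3 * k) * Real.log (L / R) + E ≤ Real.log (B / A) := by
    rw [hlogBA]
    linarith
  have hAB : A ≤ B := by
    have h5 : 0 ≤ Real.log (B / A) := by
      have : 0 ≤ (1 - 3 * k) * Real.log (L / R) := mul_nonneg (by linarith) hl0.le
      linarith
    have h6 : 1 ≤ B / A := by
      by_contra h7
      have := Real.log_neg (by positivity) (not_le.1 h7)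
      linarith
    rwa [le_div_iff₀ hA0, one_mul] at h6
  have hBX : B ≤ Xr k T R L := by
    rw [hB]
    unfold Xr
    rw [← hu]
    refine mul_le_of_le_one_left (by positivity) (by linarith)
  obtain ⟨P, hP⟩ : ∃ P : Finset ℕ, P = (QX (Xr k T R L)).filter (fun p : ℕ => A < Real.log p ∧ Real.log p ≤ B) := ⟨_, rfl⟩
  have hPm : ∀ p : ℕ, p ∈ P ↔ p.Prime ∧ A < Real.log p ∧ Real.log p ≤ B := by
    intro p
    rw [hP, Finset.mem_filter, mem_QX]
    constructor
    · rintro ⟨⟨h5, -⟩, h6⟩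
      exact ⟨h5, h6⟩
    · rintro ⟨h5, h6⟩
      exact ⟨⟨h5, h6.2.trans hBX⟩, h6⟩
  have hrec := H3 A B hA1 hAB P hPm
  have hbulk : ∑ p ∈ P, 1 / (p:ℝ) * (1 / Real.log (L / R)) ^ 2 ≤ Vw k T R L 0 := by
    unfold Vw
    refine le_trans (Finset.sum_le_sum (g := fun p : ℕ => rb k T (Jw k L 0) (bw k R L 0) p ^ 2 / (p:ℝ)) fun p hp => ?_)
      (Finset.sum_le_sum_of_subset_of_nonneg (hP ▸ Finset.filter_subset _ _) fun p _ _ =>
      div_nonneg (sq_nonneg _) (Nat.cast_nonneg _))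
    obtain ⟨h5, h6, h7⟩ := (hPm p).1 hp
    have h8 := bulk hk hk8 hlT hu0 hv0 hJ ha2 ha4 h5 (by rw [← hA]; exact h6.le) (by rw [← hB]; exact h7)
    rw [← hrk p h5] at h8
    have h9 : 1 / Real.log (L / R) ≤ rb k T (Jw k L 0) (bw k R L 0) p := hr.trans h8
    have h10 := pow_le_pow_left₀ (by positivity) h9 2
    have hp0 : (0:ℝ) < p := by exact_mod_cast h5.pos
    rw [mul_comm, mul_one_div]
    exact div_le_div_of_nonneg_right h10 hp0.le
  rw [← Finset.sum_mul] at hbulk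
  refine le_trans ?_ hbulk
  have h5 : (1 - 3 * k) * Real.log (L / R) ≤ ∑ p ∈ P, 1 / (p:ℝ) := by linarith
  have h6 := mul_le_mul_of_nonneg_right h5 (sq_nonneg (1 / Real.log (L / R)))
  refine le_trans ?_ h6
  have h7 : (1 - 3 * k) * Real.log (L / R) * (1 / Real.log (L / R)) ^ 2 = (1 - 3 * k) / Real.log (L / R) := by
    field_simp
  rw [h7]
  exact div_le_div_of_nonneg_right (by linarith) hl0.le

end Pool.Agent.Helper82.NW
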